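import Mathlib
import Pool.Agent.N290.RM.Stm

/-!
# RM/GCG: the global theorem from the local one (helper123), after `RK/GLB.lean` of helper290
-/

set_option autoImplicit false

open Complex MeasureTheory Set Filter Topology
open scoped ENNReal

namespace Pool.Agent.N123.RM

open Pool.Agent.N290.RJ Pool.Agent.N290.RK Pool.Agent.N290.RL Pool.Agent.N290.RM

theorem GCG_of (d : ℕ) (h : GPG d) : GCG d := by
  classical
  intro M L ε A W Q hε hW
  have hA1 : 0 < |A| + 1 := by positivity
  obtain ⟨C', hC'⟩ := h (M + L) (min ε (1 / (|A| + 1)))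
    {q : (Fin M → E d → ℂ) × (Fin L → E d → ℂ) × (Fin L → E d → ℂ) // Arb ε A q.1 q.2.1 q.2.2 ∧
      ∀ j, ∀ η : ℝ, 0 < η → ∃ s : E d → ℂ, VC (W η) (Q η) s ∧ ∀ z ∈ B d, ‖q.1 j z - s z‖ ≤ η}
    (fun q => Fin.append q.1.1 q.1.2.1) (lt_min hε (by positivity))
    (by
      rintro ⟨⟨f, G, κ⟩, hA, hf⟩ j
      refine Fin.addCases (fun i => ?_) (fun i => ?_) j
      · simpa only [Fin.append_left] using hA.f1 i
      · simpa only [Fin.append_right] using hA.g1 i)
    (by
      rintro ⟨⟨f, G, κ⟩, hA, hf⟩ j
      refine Fin.addCases (fun i => ?_) (fun i => ?_) j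
      · simpa only [Fin.append_left] using hA.f2 i
      · simpa only [Fin.append_right] using hA.g2 i)
    (by
      rintro ⟨⟨f, G, κ⟩, hA, hf⟩ z hz
      simp only [Fin.sum_univ_add, Fin.append_left, Fin.append_right]
      have hs1 : 0 ≤ ∑ i, ‖f i z‖ := Finset.sum_nonneg fun i _ => norm_nonneg _
      have hs2 : 0 ≤ ∑ i, ‖G i z‖ := Finset.sum_nonneg fun i _ => norm_nonneg _
      by_cases hsm : ∀ j, ‖f j z‖ < ε
      · have h1 := hA.k3 z hz hsm
        have h2 : (1 : ℝ) ≤ ∑ l, ‖G l z‖ * |A| := by
          calc (1 : ℝ) = ‖∑ l, G l z * κ l z‖ := by rw [h1, norm_one]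
            _ ≤ ∑ l, ‖G l z * κ l z‖ := norm_sum_le _ _
            _ ≤ ∑ l, ‖G l z‖ * |A| := Finset.sum_le_sum fun l _ => by
              rw [norm_mul]
              exact mul_le_mul_of_nonneg_left ((hA.k2 l z hz hsm).trans (le_abs_self A))
                (norm_nonneg _)
        rw [← Finset.sum_mul] at h2
        have h3 : 1 / (|A| + 1) ≤ ∑ l, ‖G l z‖ := by
          rw [div_le_iff₀ hA1]
          nlinarith
        exact (min_le_right _ _).trans (h3.trans (by linarith))
      · push Not at hsm
        obtain ⟨j, hj⟩ := hsm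
        have h1 := Finset.single_le_sum (f := fun j => ‖f j z‖) (fun i _ => norm_nonneg _)
          (Finset.mem_univ j)
        exact (min_le_left _ _).trans (hj.trans (h1.trans (by linarith))))
    (by
      intro p hp
      refine ⟨Finset.univ.image (Fin.castAdd L), ε, |A|, W, Q, fun _ => 1, hε,
        fun η hη => ⟨hW η hη, one_pos⟩, ?_⟩
      rintro ⟨⟨f, G, κ⟩, hA, hf⟩
      refine ⟨?_, Fin.append (fun _ _ => 0) κ, ?_, ?_⟩
      · intro j hj η hη
        obtain ⟨i, -, rfl⟩ := Finset.mem_image.1 hj
        obtain ⟨s, hs, hs2⟩ := hf i η hη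
        refine ⟨s, hs, fun z hz _ => ?_⟩
        simpa only [Fin.append_left] using hs2 z hz
      · intro l
        refine Fin.addCases (fun i => ?_) (fun i => ?_) l
        · simp only [Fin.append_left]
          exact differentiableOn_const _
        · simp only [Fin.append_right]
          refine (hA.k1 i).mono fun z hz => ⟨hz.1, fun j => ?_⟩
          simpa only [Fin.append_left] using
            hz.2.2 (Fin.castAdd L j) (Finset.mem_image_of_mem _ (Finset.mem_univ j))
      · intro z hz _ hsm
        have hsm' : ∀ j, ‖f j z‖ < ε := fun j => by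
          simpa only [Fin.append_left] using
            hsm (Fin.castAdd L j) (Finset.mem_image_of_mem _ (Finset.mem_univ j))
        refine ⟨fun l => ?_, ?_⟩
        · refine Fin.addCases (fun i => ?_) (fun i => ?_) l
          · simp only [Fin.append_left, norm_zero]
            exact abs_nonneg A
          · simp only [Fin.append_right]
            exact (hA.k2 i z hz hsm').trans (le_abs_self A)
        · rw [Finset.sum_subset (Finset.subset_univ _) (fun l _ hl => ?_)]
          · simp only [Fin.sum_univ_add, Fin.append_left, Fin.append_right, mul_zero,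
              Finset.sum_const_zero, zero_add]
            exact hA.k3 z hz hsm'
          · rw [Finset.mem_compl, not_not] at hl
            obtain ⟨i, -, rfl⟩ := Finset.mem_image.1 hl
            simp only [Fin.append_left, mul_zero])
  refine ⟨C', fun f G κ hA hf => ?_⟩
  obtain ⟨g, hg, hgz⟩ := hC' ⟨(f, G, κ), hA, hf⟩
  refine ⟨fun j => g (Fin.castAdd L j), fun l => g (Fin.natAdd M l), fun j => hg _, fun l => hg _,
    fun z hz => ⟨fun j => (hgz z hz).1 _, fun l => (hgz z hz).1 _, ?_⟩⟩
  have h1 := (hgz z hz).2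
  simp only [Fin.sum_univ_add, Fin.append_left, Fin.append_right] at h1
  exact h1

end Pool.Agent.N123.RM
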